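import Mathlib
import Pool.Agent.H.MP_7aef23_nt.A

set_option autoImplicit false

namespace Pool.Agent.Results.MP_7aef23_nt.Theta

open Filter

/-- `x` is a sum of `k` elements of `A ∪ (-A)`, repetitions allowed. -/
def IsSum (A : Set ℤ) (k : ℕ) (x : ℤ) : Prop :=
  ∃ l : List ℤ, l.length = k ∧ (∀ y ∈ l, y ∈ A ∨ -y ∈ A) ∧ l.sum = x

/-- The word length `ℓ_A(x)`: the least such `k`, and `∞` if there is none. -/
noncomputable def wlen (A : Set ℤ) (x : ℤ) : ℕ∞ :=
  sInf {m : ℕ∞ | ∃ k : ℕ, m = k ∧ IsSum A k x}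

/-- The family `𝒜(r, W)`: sets of positive integers generating `ℤ` with `S_A(r) = W ∪ (-W)`. -/
def Fam (r : ℕ) (W : Finset ℤ) : Set (Set ℤ) :=
  {A | (∀ a ∈ A, 0 < a) ∧ (∀ x, wlen A x < ⊤) ∧
    {x | wlen A x = (r : ℕ∞)} = {x | x ∈ W ∨ -x ∈ W}}

/-- The counting function `A(t)`. -/
noncomputable def cnt (A : Set ℤ) (t : ℝ) : ℕ := {a ∈ A | (a : ℝ) ≤ t}.ncard

/-- `A(t) ≫ t ^ θ`. -/
def Grows (A : Set ℤ) (θ : ℝ) : Prop :=
  ∃ c : ℝ, 0 < c ∧ ∀ᶠ t : ℝ in atTop, c * t ^ θ ≤ (cnt A t : ℝ)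

open Pool.Agent.H7aef in
/-- `θ(r, W) = 1` and the supremum is attained: some member of `𝒜(r, W)` has `A(t) ≫ t`. -/
theorem result (r : ℕ) (hr : 2 ≤ r) (W : Finset ℤ) (hW : ∀ w ∈ W, 0 < w) :
    IsGreatest {θ : ℝ | 0 < θ ∧ ∃ A ∈ Fam r W, Grows A θ} 1 ∧
      sSup {θ : ℝ | 0 < θ ∧ ∃ A ∈ Fam r W, Grows A θ} = 1 := by
  classical
  have hsub : ∀ (A : Set ℤ) (t : ℝ), (∀ a ∈ A, 0 < a) →
      {a ∈ A | (a : ℝ) ≤ t} ⊆ (Finset.Icc 1 ⌊t⌋ : Finset ℤ) := by
    rintro A t hA a ⟨h1, h2⟩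
    simp only [Finset.coe_Icc, Set.mem_Icc]
    exact ⟨hA a h1, Int.le_floor.mpr h2⟩
  suffices h : IsGreatest {θ : ℝ | 0 < θ ∧ ∃ A ∈ Fam r W, Grows A θ} 1 from ⟨h, h.csSup_eq⟩
  constructor
  · obtain ⟨h, rfl⟩ : ∃ h, r = h + 1 := ⟨r - 1, by omega⟩
    obtain ⟨M, T, hM, hT1, hT2, hT3, hT4⟩ := exists_set h (by omega) (W ∪ W.image fun w => -w)
      (by
        intro w hw
        rcases Finset.mem_union.mp hw with hw | hw
        · exact (hW w hw).ne'
        · obtain ⟨v, hv, rfl⟩ := Finset.mem_image.mp hw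
          exact neg_ne_zero.mpr (hW v hv).ne')
      (by
        intro w hw
        rcases Finset.mem_union.mp hw with hw | hw
        · exact Finset.mem_union_right _ (Finset.mem_image.mpr ⟨w, hw, rfl⟩)
        · obtain ⟨v, hv, rfl⟩ := Finset.mem_image.mp hw
          exact Finset.mem_union_left _ (by simpa using hv))
    have hmem : ∀ x, x ∈ (W ∪ W.image fun w => -w) ↔ x ∈ W ∨ -x ∈ W := by
      intro x
      simp only [Finset.mem_union, Finset.mem_image]
      refine or_congr_right ⟨?_, fun hx => ⟨-x, hx, neg_neg x⟩⟩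
      rintro ⟨v, hv, rfl⟩
      simpa using hv
    generalize (W ∪ W.image fun w => -w) = V at hT3 hT4 hmem
    have hiff : ∀ (k : ℕ) (x : ℤ), IsSum {a ∈ T | 0 < a} k x ↔ Rep (T \ {0}) k x := by
      intro k
      induction k with
      | zero =>
        intro x
        constructor
        · rintro ⟨l, h1, -, rfl⟩
          rw [List.length_eq_zero_iff.mp h1]; rfl
        · intro hx
          exact ⟨[], rfl, by simp, hx.symm⟩
      | succ k ih =>
        intro x
        constructor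
        · rintro ⟨l, h1, h2, rfl⟩
          obtain ⟨y, l, rfl⟩ := List.exists_cons_of_length_eq_add_one h1
          refine ⟨y, ?_, (ih _).mp ⟨l, by simpa using h1, fun z hz => h2 z (by simp [hz]), by simp⟩⟩
          rcases h2 y (by simp) with ⟨a, b⟩ | ⟨a, b⟩
          · exact ⟨a, b.ne'⟩
          · exact ⟨by simpa using hT2 _ a, by intro h0; rw [h0] at b; simp at b⟩
        · rintro ⟨s, ⟨a, b⟩, hx⟩
          obtain ⟨l, h1, h2, h3⟩ := (ih _).mpr hx
          refine ⟨s :: l, by simp [h1], ?_, by simp [h3]⟩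
          intro y hy
          rcases List.mem_cons.mp hy with rfl | hy
          · rcases lt_or_gt_of_ne (show y ≠ 0 from b) with c | c
            · exact Or.inr ⟨hT2 _ a, by omega⟩
            · exact Or.inl ⟨a, c⟩
          · exact h2 y hy
    have hle : ∀ (k : ℕ) (x : ℤ), Rep (T \ {0}) k x → wlen {a ∈ T | 0 < a} x ≤ k :=
      fun k x hx => sInf_le ⟨k, rfl, (hiff k x).mpr hx⟩
    have hout : ∀ x ∉ V, wlen {a ∈ T | 0 < a} x ≤ h := by
      intro x hx
      obtain ⟨k, hk, a⟩ := Rep_drop (hT4 x hx)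
      exact (hle k x a).trans (by exact_mod_cast hk)
    have hin : ∀ x ∈ V, wlen {a ∈ T | 0 < a} x = (h + 1 : ℕ) := by
      intro x hx
      apply le_antisymm
      · obtain ⟨B, hB⟩ := (V.finite_toSet.image fun s => |s|).bddAbove
        have hB' : ∀ s ∈ V, |s| ≤ B := fun s hs => hB ⟨s, hs, rfl⟩
        have hB0 : 0 ≤ B := (abs_nonneg x).trans (hB' x hx)
        have h1 : 2 * B + 1 ≤ M * (2 * B + 1) := le_mul_of_one_le_left (by omega) hM
        have h2 : x - M * (2 * B + 1) ∉ V := by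
          intro hc
          have a1 := abs_le.mp (hB' _ hc)
          have a2 := abs_le.mp (hB' _ hx)
          omega
        obtain ⟨k, hk, a⟩ := Rep_drop (hT4 _ h2)
        refine (hle (k + 1) x ⟨_, ⟨hT1 _, ?_⟩, a⟩).trans (by exact_mod_cast Nat.succ_le_succ hk)
        intro h0
        rw [Set.mem_singleton_iff] at h0
        omega
      · refine le_sInf ?_
        rintro _ ⟨k, rfl, hk⟩
        have : ¬ k ≤ h := fun hc => hT3 k hc x hx (Rep_mono Set.sdiff_subset ((hiff k x).mp hk))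
        exact_mod_cast (by omega : h + 1 ≤ k)
    refine ⟨one_pos, {a ∈ T | 0 < a}, ⟨fun a ha => ha.2, fun x => ?_, ?_⟩, ?_⟩
    · by_cases hx : x ∈ V
      · rw [hin x hx]; exact ENat.natCast_lt_top _
      · exact (hout x hx).trans_lt (ENat.natCast_lt_top _)
    · ext x
      simp only [Set.mem_ofPred_eq, ← hmem]
      refine ⟨fun hx => ?_, hin x⟩
      by_contra hc
      have := hout x hc
      rw [hx] at this
      have : h + 1 ≤ h := by exact_mod_cast this
      omega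
    · have hM' : (0 : ℝ) < M := by exact_mod_cast hM
      refine ⟨1 / (2 * M), by positivity, ?_⟩
      filter_upwards [eventually_ge_atTop (2 * (M : ℝ))] with t ht
      have h1 : (↑((Finset.Icc 1 ⌊t / M⌋).image (fun u => M * u)) : Set ℤ) ⊆
          {a ∈ {a ∈ T | 0 < a} | (a : ℝ) ≤ t} := by
        intro a ha
        obtain ⟨u, hu, rfl⟩ := Finset.mem_image.mp (Finset.mem_coe.mp ha)
        obtain ⟨u1, u2⟩ := Finset.mem_Icc.mp hu
        refine ⟨⟨hT1 u, by positivity⟩, ?_⟩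
        have := (le_div_iff₀ hM').mp (Int.le_floor.mp u2)
        push_cast; linarith
      have h2 := Set.ncard_le_ncard h1
        ((Finset.finite_toSet _).subset (hsub _ t fun a ha => ha.2))
      rw [Set.ncard_coe_finset, Finset.card_image_of_injective _ (mul_right_injective₀ hM.ne'),
        Int.card_Icc] at h2
      have h3 : ⌊t / M⌋ ≤ (cnt {a ∈ T | 0 < a} t : ℤ) := by unfold cnt; omega
      have h4 : ((⌊t / M⌋ : ℤ) : ℝ) ≤ cnt {a ∈ T | 0 < a} t := by exact_mod_cast h3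
      have h5 := Int.lt_floor_add_one (t / M)
      have h6 : 2 ≤ t / M := (le_div_iff₀ hM').mpr ht
      have h7 : 1 / (2 * (M : ℝ)) * t ^ (1 : ℝ) = t / M / 2 := by rw [Real.rpow_one]; field_simp
      rw [h7]; linarith
  · rintro θ ⟨-, A, ⟨hA, -, -⟩, c, hc, hg⟩
    by_contra hθ
    push Not at hθ
    have h1 := (tendsto_rpow_atTop (sub_pos.mpr hθ)).const_mul_atTop hc
    obtain ⟨t, a1, a2, a3⟩ := (hg.and ((h1.eventually_gt_atTop 1).and (eventually_gt_atTop 0))).exists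
    have h2 := Set.ncard_le_ncard (hsub A t hA) (Finset.finite_toSet _)
    rw [Set.ncard_coe_finset, Int.card_Icc] at h2
    have h0 : 0 ≤ ⌊t⌋ := Int.floor_nonneg.mpr a3.le
    have h3 : (cnt A t : ℤ) ≤ ⌊t⌋ := by unfold cnt; omega
    have h4 : (cnt A t : ℝ) ≤ (⌊t⌋ : ℤ) := by exact_mod_cast h3
    have h5 := Int.floor_le t
    have h6 : t ^ θ = t ^ (θ - 1) * t := by
      rw [← Real.rpow_add_one a3.ne']; simp
    rw [h6] at a1
    nlinarith

end Pool.Agent.Results.MP_7aef23_nt.Theta
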